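import Pool.Agent.H41.Ev.Glue
import Pool.Agent.H41.Ev.Lattice

/-!
# `F_q` has no maximiser in the plane for `q > 1` close to `1` (MP_898b17_an)

Definitions: `Pool/Agent/H41/Ev/Defs.lean` (`IsTest`, `H10`, `lam`, `IsTorsion`, `torsion`, `Fq`,
`Admissible`). The torsion function exists (`exists_torsion_two`) and is unique
(`IsTorsion.unique`), so that `torsion` is the torsional rigidity.
-/

namespace Pool.Agent.Results.MP_898b17_an.NoMaximiser

open Pool.Agent.H41.Ev

/-- There is `q₀ > 1` such that for all `1 < q < q₀`: the values of `F_q` on the admissible sets of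
the plane are bounded above, and no admissible set attains their supremum. -/
theorem result : ∃ q₀ : ℝ, 1 < q₀ ∧ ∀ q : ℝ, 1 < q → q < q₀ →
    BddAbove {t : ℝ | ∃ Ω : Set (EuclideanSpace ℝ (Fin 2)), Admissible Ω ∧ t = Fq 2 q Ω} ∧
    ∀ Ω : Set (EuclideanSpace ℝ (Fin 2)), Admissible Ω →
      Fq 2 q Ω <
        sSup {t : ℝ | ∃ Ω' : Set (EuclideanSpace ℝ (Fin 2)), Admissible Ω' ∧ t = Fq 2 q Ω'} :=
  no_max_of_lattice lattice

end Pool.Agent.Results.MP_898b17_an.NoMaximiser
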